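import Pool.Agent.Work.MP_d87e04_lc.WI.WMain

/-!
# MP_d87e04_lc: weakly innermost normalizing systems

Let `R` be a left-linear TRS, possibly infinite, such that for every critical pair `t ≈ s` the terms
`s` and `t` differ by steps at pairwise disjoint positions, each in one of the two directions; this
contains the conditions (a), (b), (c) and all mixtures of them. If every reduct of a term `b` has a
normal form which is reachable by innermost steps, then all reducts of `b` have one and the same
normal form. So `R` is confluent if it is weakly innermost normalizing. Constants, duplication,
erasure, non-termination and infinite nesting are allowed.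

Proof (file `Pool/Agent/Work/MP_d87e04_lc/WI/WMain.lean`). If `x` and `y` differ by steps at disjoint
positions, in any direction, then innermost reductions of `x` and of `y` to normal forms end in the
same term: induction on the sum of the two lengths. One root step `l σ → r σ`: if some `σ x`, `x` in
`l`, is not a normal form, it is replaced by its normal form in both terms; otherwise the first step
of the reduction of `l σ` is at a non-variable position of `l`, and its result and `r σ` are an
instance of a critical pair.
-/

set_option autoImplicit false

namespace Pool.Agent.Results.MP_d87e04_lc.InnermostNormalizing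

open Pool.Agent.Work.MP_d87e04_lc Pool.Agent.Work.MP_d87e04_lc.WI

universe u

theorem result {F : Type u} {ar : F → ℕ} (R : Set (Rule F ar))
    (hR : IsTRS R) (hL : LeftLinear R)
    (hC : ∀ t s, CriticalPair R t s → Par R s t ∨ Par R t s ∨ Dis R s t) :
    (∀ b, (∀ b', Steps R b b' → InnNormalizing R b') →
      ∃ v, Normal R v ∧ ∀ b', Steps R b b' → ISteps R b' v) ∧
    ((∀ t, InnNormalizing R t) → Confluent R) := by
  have hC' : ∀ t s, CriticalPair R t s → Dis R s t := by
    intro t s h
    rcases hC t s h with h1 | h1 | h1
    · exact Dis.of_par h1
    · exact (Dis.of_par h1).symm
    · exact h1
  refine ⟨fun b hb => unique_normal hR hL hC' hb, fun hN a b c hab hac => ?_⟩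
  obtain ⟨v, -, hv⟩ := unique_normal hR hL hC' (b := a) fun b' _ => hN b'
  exact ⟨v, (hv b hab).steps, (hv c hac).steps⟩

end Pool.Agent.Results.MP_d87e04_lc.InnermostNormalizing
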