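import Pool.Agent.Work.MP_d87e04_lc.PFinal

/-!
# MP_d87e04_lc: left-linear systems whose critical pairs are closed by a parallel step, in either
direction, or by steps below the root

Let `R` be a left-linear TRS such that every critical pair `t ≈ s` satisfies `s →∥ t`, or
`t →∥ s`, or `t` and `s` have a common reduct by steps below the root. This covers the conditions
(a), (b) and (c). If there is no infinite sequence `b = c₀, c₁, c₂, ...` in which every term is a
proper subterm of a reduct of the preceding one, then any two reducts of `b` have a common reduct.

Proof (see the files `PDefs`, `PMain`, `PFinal` in `Pool/Agent/Work/MP_d87e04_lc/`): induction on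
`b` along the relation `Below R N b` (`N` is a proper subterm of a reduct of `b`). By induction all
`N` below `b` are confluent, and more: they have ordinal rank functions measuring the distance to a
given reduct (`IsRank`). The reducts of `b` are divided into classes (`κ`) modulo steps below the
root. The condition on critical pairs is used only for terms of different classes, where it gives a
root step in one of the two directions (`Cx.root_of_clo`). Root steps between classes define a
relation `CT`, which is shown to be subcommutative with the help of ordinal ranks for the steps
below the root (`Cx.D1`, `Cx.D2`, `Cx.D3`).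
-/

set_option autoImplicit false

namespace Pool.Agent.Results.MP_d87e04_lc.NoInfiniteNestingABC

open Pool.Agent.Work.MP_d87e04_lc

universe u

theorem result {F : Type u} {ar : F → ℕ} (R : Set (Rule F ar))
    (hR : IsTRS R) (hL : LeftLinear R) (hC : CondP R) (b : Tm F ar)
    (hb : ¬ ∃ c : ℕ → Tm F ar, c 0 = b ∧
      ∀ n, ∃ d, Steps R (c n) d ∧ (c (n + 1)).ProperSub d)
    (x y : Tm F ar) (hx : Steps R b x) (hy : Steps R b y) :
    ∃ e, Steps R x e ∧ Steps R y e := by
  have hacc : Acc (Below R) b := by
    by_contra hc
    exact hb (not_acc_iff_exists_descending_chain.1 hc)
  exact (PC.good_of_acc hR hL hC hacc).join hx hy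

end Pool.Agent.Results.MP_d87e04_lc.NoInfiniteNestingABC
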