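import Pool.Agent.Work.MP_d87e04_lc.SS.SMain
import Pool.Agent.Work.MP_d87e04_lc.SS.SCP

/-!
# MP_d87e04_lc: conditions (b) and (c) for systems with constants

Let `R` be a left-linear TRS, possibly infinite. `R` is confluent if

* (D) condition (c) holds with closing steps which duplicate only tame terms: if a variable occurs
  at least twice in the right side of the rule of the closing step, it is instantiated by a term
  which contains a variable or contains no constant occurring properly in a left-hand side;

in particular (all terms are tame) if

* (N) condition (c) (in particular (b)) holds, and no left-hand side has a ground proper subterm
  (constants may occur in right-hand sides, and a left-hand side may be a constant).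

Proof (files in `Pool/Agent/Work/MP_d87e04_lc/SS`). A conversion is a word of single steps, forward
or backward. All positions of all terms of the word get weights, from the left end and from the
right end: passing a step, created positions get the maximum of the weights of the pattern of the
redex, a position with one copy keeps its weight, a position with at least two copies gets `1 +` the
maximum of the weights of its copies, and the pattern gets the label of the step, which is the
maximum of all weights of the term, or `1 +` the maximum of the weights in a region of the
contractum given by an assignment `S` of positions of right-hand sides. The cost of a step is the
maximum, over its pattern, of the sums of both weights. A square does not increase the weights, and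
the multiset of the costs does not increase (`good_par`, `good_nest`); a closing step has a cost
at most the costs of both steps of the overlap (`good_tr`), so that the multiset of costs decreases.
-/

set_option autoImplicit false

namespace Pool.Agent.Results.MP_d87e04_lc.SingleSteps

open Pool.Agent.Work.MP_d87e04_lc Pool.Agent.Work.MP_d87e04_lc.SS

universe u

theorem result {F : Type u} {ar : F → ℕ} (R : Set (Rule F ar))
    (hR : IsTRS R) (hL : LeftLinear R) :
    -- (N)
    (CondC R → NoGP R → Confluent R) ∧
    -- (D)
    (CondD R → Confluent R) :=
  ⟨fun hC hN => confluent_of_condX hR hL (condX_of_noGP hR hL hN hC),
    fun hD => confluent_of_condX hR hL (condX_of_condD hR hL hD)⟩

end Pool.Agent.Results.MP_d87e04_lc.SingleSteps
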