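import Pool.Agent.Work.MP_d87e04_lc.CG.TCor

/-!
# MP_d87e04_lc: the critical-pair conditions (a), (b), (c) without a termination or nesting
hypothesis, for large classes of left-linear systems

Let `R` be a left-linear TRS, possibly infinite, such that every critical pair `t ≈ s` satisfies
`s →∥ t` or `t →∥ s` (this covers (a), (b), (c) and mixtures). Then `R` is confluent in each of the
following cases.

* (C) There is a set `T` of function symbols with the properties (i)-(iv) of `Tracks`.
* (A) The rules which contain constants contain one in the left side, and do not overlap each
  other. In particular: no constant occurs in the rules.
* (B) In every critical overlap the mgu maps the variables of the outer right side `d` to terms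
  without defined symbols (root symbols of left sides).

(A) and (B) are the cases `T` = constants and `T` = defined symbols of (C).

Proof (files in `Pool/Agent/Work/MP_d87e04_lc/CG` and `CF`). A conversion is a zigzag of parallel
steps. Every tracked point (variable or symbol of `T`) of the target of a step has ancestors in
the source: itself, or, if it is created by the rule, all the symbols of `T` of the left side.
For every term of the zigzag count the threads of every tracked point to the right end and to the
left end (`Rw`, `Lw`; a point without descendants counts `1`). The cost of a letter is the sum,
over the tracked points of its source below its redexes, of the products of the two numbers. If a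
peak of two steps without critical overlap is replaced by the usual square, the total cost does not
increase and the number of pairs (backward letter, later forward letter) drops (`imp_sq`). If a
critical overlap is replaced by its closing step, the total cost drops (`simp_tri`), because two
points related by the closing step have a common ancestor in the source of the overlap (`star`,
where (iii) and (iv) are used). So every zigzag can be transformed into a valley (`join_of_zig`).
-/

set_option autoImplicit false

namespace Pool.Agent.Results.MP_d87e04_lc.TrackedSymbols

open Pool.Agent.Work.MP_d87e04_lc

universe u

theorem result {F : Type u} {ar : F → ℕ} (R : Set (Rule F ar))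
    (hR : IsTRS R) (hL : LeftLinear R)
    (hC : ∀ t s, CriticalPair R t s → Par R s t ∨ Par R t s) :
    -- (A)
    ((∀ q ∈ R, Occurs (Consts ar) q.2 → Occurs (Consts ar) q.1) →
      (∀ l r g d ρ₁ ρ₂ p θ, Overlap R l r g d ρ₁ ρ₂ p θ →
        ¬ (Occurs (Consts ar) l ∧ Occurs (Consts ar) g)) → Confluent R) ∧
    -- (B)
    ((∀ l r g d ρ₁ ρ₂ p θ, Overlap R l r g d ρ₁ ρ₂ p θ →
      ∀ y, 0 < d.occ y → ¬ Occurs (Defined R) (θ (ρ₂ y))) → Confluent R) ∧
    -- (C)
    (∀ T : Set F, Tracks R T → Confluent R) :=
  ⟨CG.confluent_consts hR hL hC, CG.confluent_defined hR hL hC,
    fun _ hT => CG.confluent_tracks hR hL hT hC⟩

end Pool.Agent.Results.MP_d87e04_lc.TrackedSymbols
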